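import Pool.Agent.W394.BQN.Stm2
import Pool.Agent.W53.BQN.LOC

/-!
# Elementary operations over semilocal rings
-/

set_option autoImplicit false

open Polynomial

namespace Pool.Agent.W406.BQN

open Pool.Agent.W394.BQN BQ Pool.Agent.W53.BQN

theorem t_SEM : S_SEM := by
  intro R _ hfin a b hab
  obtain ⟨x, y, hxy⟩ := hab
  classical
  have hcop : Pairwise (Function.onFun IsCoprime (fun i : MaximalSpectrum R => i.asIdeal)) := by
    intro i j hij
    refine Ideal.isCoprime_iff_sup_eq.2 ?_
    refine i.isMaximal.coprime_of_ne j.isMaximal ?_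
    intro h
    exact hij (MaximalSpectrum.ext h)
  obtain ⟨t, ht⟩ := Ideal.exists_forall_sub_mem_ideal hcop
    (fun i => if a ∈ i.asIdeal then (1 : R) else 0)
  have hw : IsUnit (a + b * t) := by
    by_contra hne
    obtain ⟨m, hm, hmem⟩ := exists_max_ideal_of_mem_nonunits hne
    have h1 := ht ⟨m, hm⟩
    by_cases ha : a ∈ m
    · simp only [ha, if_true] at h1
      have hb : b ∈ m := by
        have h2 : b = (a + b * t) - a - b * (t - 1) := by ring
        rw [h2]
        exact m.sub_mem (m.sub_mem hmem ha) (m.mul_mem_left _ h1)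
      apply hm.ne_top
      rw [Ideal.eq_top_iff_one, ← hxy]
      exact m.add_mem (m.mul_mem_left _ ha) (m.mul_mem_left _ hb)
    · simp only [ha, if_false, sub_zero] at h1
      apply ha
      have h2 : a = (a + b * t) - b * t := by ring
      rw [h2]
      exact m.sub_mem hmem (m.mul_mem_left _ h1)
  obtain ⟨u, hu⟩ := hw
  have hu1 : (a + b * t) * (↑u⁻¹ : R) = 1 := by rw [← hu]; exact u.mul_inv
  refine ⟨!![1, 0; t, 1] * !![1, (↑u⁻¹ : R) * (1 - b); 0, 1] * !![1, 0; 1 - (a + b * t), 1] *
      !![1, -1; 0, 1],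
    mul_mem (mul_mem (mul_mem (lower_mem _) (upper_mem _)) (lower_mem _)) (upper_mem _), ?_, ?_⟩
  · simp only [Matrix.mul_apply, Fin.sum_univ_two, Matrix.of_apply, Matrix.cons_val', Matrix.cons_val_zero,
      Matrix.cons_val_one, Matrix.cons_val_fin_one]
    linear_combination (1 - b) * (1 - (a + b * t)) * hu1
  · simp only [Matrix.mul_apply, Fin.sum_univ_two, Matrix.of_apply, Matrix.cons_val', Matrix.cons_val_zero,
      Matrix.cons_val_one, Matrix.cons_val_fin_one]
    linear_combination (-(1 - b) * (1 - (a + b * t)) + (1 - b)) * hu1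

end Pool.Agent.W406.BQN
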